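import Pool.Agent.Helper78.JT.Defs

/-!
# Satisfying assignments of circuits over decision lists of CNFs

Turing machines are Mathlib's multi-stack machines; `PolyTimeComputable` is in
`Pool.Agent.Helper81.CxDefs`, the coding `encOf` of structured data (with numbers in unary) is in
`Pool.Agent.Helper81.CxData`. The circuits (`Circuit`, `out`, `cnt`, `size`, `Narrow`) are in
`Pool.Agent.Helper78.JT.Defs`.
-/

namespace Pool.Agent.Helper52.SX

open Pool.Agent.Helper81.CC Pool.Agent.Helper78.JT

/-- Search for satisfying assignments of circuits: there is a deterministic polynomial-time function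
`f` which, for each circuit `z` of any size `N` with at most `(log₂ N + 2) ^ (e / (e + 1))` decision
lists, all of whose CNFs have at most `k (log₂ N + 1)` clauses with more than `k` literals, and for
which at least the fraction `1 / (log₂ N + 2) ^ c` of all assignments has the output `true`, gives one
of these assignments (as the list of its bits). -/
def FindsCircuits (c k e : ℕ) : Prop :=
  ∃ f : Circuit → List Bool, PolyTimeComputable (encOf Circuit) (encOf (List Bool)) f ∧
    ∀ z, Narrow k z → z.2.1.length ^ (e + 1) ≤ (Nat.log 2 (size z) + 2) ^ e →
      2 ^ z.1 ≤ (Nat.log 2 (size z) + 2) ^ c * cnt z →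
      ∃ r : Fin z.1 → Bool, out z r = true ∧ f z = List.ofFn r

end Pool.Agent.Helper52.SX
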