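import Pool.Agent.Helper52.SX.Goals3
import Pool.Agent.Helper81.CompC

/-!
# SX-FCT: search for circuits from the search for tuples
-/

namespace Pool.Agent.Helper52.SX

open Pool.Agent.Helper81.CC Pool.Agent.Helper78.DT Pool.Agent.Helper51.ZP Pool.Agent.Helper65.CS
open Pool.Agent.Helper78.JT (Clause CList Circuit Holds out cnt size Narrow)
open scoped Classical

theorem narrow_mono {k k' : ℕ} (h : k ≤ k') {z : Circuit} (hz : Narrow k z) : Narrow k' z := by
  intro f hf e he
  have h1 := hz f hf e he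
  have h2 : (e.1.filter fun C => decide (k' < C.length)).length ≤
      (e.1.filter fun C => decide (k < C.length)).length := by
    apply List.Sublist.length_le
    apply List.monotone_filter_right
    intro C hC
    simp only [decide_eq_true_eq] at hC ⊢
    omega
  refine h2.trans (h1.trans ?_)
  gcongr

theorem fct (hCnv : CnvStmt) (hPcv : PcvStmt) (hErr : ErrStmt) (hFnu : FnuStmt) (hFpr : FprStmt)
    (hFnf : FnfStmt) : FctStmt := by
  intro hF c k e
  obtain ⟨K0, hK0⟩ := hErr c (k + 2) (by omega)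
  obtain ⟨f, hf, hf'⟩ := hF (c + 1) K0 (e + 1)
  obtain ⟨hsz, hcnv⟩ := hPcv K0
  refine ⟨fun z => f (z.1, cnv (K0 * lg (size z)) (min z.2.1.length (lg (size z))) z,
    (4 * size z + 4) ^ (K0 + 4)), ?_, ?_⟩
  · have h1 : PolyTime fun z : Circuit => (4 * size z + 4) ^ (K0 + 4) :=
      PolyTime.pow (PolyTime.add (PolyTime.mul (PolyTime.const 4) hsz) (PolyTime.const 4)) _
    have h2 : PolyTime fun z : Circuit =>
        (z.1, cnv (K0 * lg (size z)) (min z.2.1.length (lg (size z))) z,
          (4 * size z + 4) ^ (K0 + 4)) :=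
      PolyTime.pair (by fun_prop) (PolyTime.pair hcnv h1)
    exact PolyTime.computable (PolyTime.comp hf h2)
  · intro z hN hr hc
    have hr' : z.2.1.length ^ (e + 1) ≤ lg (size z) ^ e := hr
    obtain ⟨a1, a2, a3, a4, a5, a6⟩ := hFnu c K0 e (size z) z.2.1.length hr'
    have hmin : min z.2.1.length (lg (size z)) = z.2.1.length := min_eq_left a4
    set N := (4 * size z + 4) ^ (K0 + 4) with hNdef
    set D := K0 * lg (size z) with hD
    obtain ⟨b1, b2⟩ := hFnf z D z.2.1.length
    have hz1 : z.1 ≤ size z := by unfold size; omega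
    have hnf : NFT z.1 (K0 * lg N) N (cnv D z.2.1.length z) := by
      intro F hF1
      obtain ⟨c1, c2⟩ := b1 F hF1
      refine ⟨fun p hp => ⟨(c1 p hp).1, (c1 p hp).2.1.trans ?_, (c1 p hp).2.2⟩, c2.trans a2⟩
      rw [hD]
      gcongr
    have hlen : (cnv D z.2.1.length z).1.length ^ (e + 1 + 1) ≤ lg N ^ (e + 1) := by
      rw [b2]
      exact a5
    have hLpos : (0 : ℝ) < (lg (size z) : ℝ) := by
      have : 0 < lg (size z) := by unfold lg; omega
      exact_mod_cast this
    have hfr : 1 / (lg N : ℝ) ^ (c + 1) ≤ fract z.1 (cnv D z.2.1.length z) := by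
      have h1 := hFpr z D (k + 2) (by omega) (narrow_mono (by omega) hN)
      have h2 := hK0 (size z)
      have h3 : 1 / (lg (size z) : ℝ) ^ c ≤ (cnt z : ℝ) / 2 ^ z.1 := by
        rw [div_le_div_iff₀ (pow_pos hLpos c) (by positivity), one_mul]
        have : ((2 ^ z.1 : ℕ) : ℝ) ≤ (((Nat.log 2 (size z) + 2) ^ c * cnt z : ℕ) : ℝ) := by
          exact_mod_cast hc
        push_cast at this
        unfold lg
        push_cast
        linarith
      push_cast at h1 h2
      rw [← hD] at h2
      linarith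
    obtain ⟨x, hx, hx'⟩ := hf' z.1 N (cnv D z.2.1.length z) (hz1.trans a1) hnf hlen hfr
    refine ⟨x, (hCnv D z x).1 hx, ?_⟩
    show f (z.1, cnv D (min z.2.1.length (lg (size z))) z, N) = List.ofFn x
    rw [hmin]
    exact hx'

end Pool.Agent.Helper52.SX
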