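import Pool.Agent.Helper52.SX.Goals

/-!
# Project SX, second part: from circuits over decision lists of narrow CNFs to tuples
-/

namespace Pool.Agent.Helper52.SX

open Pool.Agent.Helper81.CC Pool.Agent.Helper78.DT Pool.Agent.Helper51.ZP Pool.Agent.Helper65.CS
open Pool.Agent.Helper78.JT (Clause CList Circuit Holds out cnt size Narrow)
open scoped Classical

/-- Cleaning of a CNF in the variables `< n`: the clauses which are always true are removed (two
opposite literals, or a literal `(v, false)` with `v ≥ n`), then the literals which are never true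
(`(v, true)` with `v ≥ n`) and the repetitions. -/
def cl (n : ℕ) (F : List Clause) : List Clause :=
  (F.filter fun C =>
    !(C.any fun p => C.contains (p.1, !p.2) || (decide (n ≤ p.1) && !p.2))).map fun C =>
    (C.filter fun p => decide (p.1 < n)).dedup

/-- A clean CNF. -/
def Cln (n : ℕ) (F : List Clause) : Prop :=
  ∀ C ∈ F, C.Nodup ∧ ∀ p ∈ C, p.1 < n ∧ (p.1, !p.2) ∉ C

/-- Reading a CNF, clause by clause and literal by literal; `a` is the list of the literals
`(v, value of v)` read so far. `1`: all clauses are true; `0`: a clause is false; `v + 2`: the next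
variable to be read is `v`. -/
def nx (F : List Clause) (a : List (ℕ × Bool)) : ℕ :=
  match F.find? fun C => !(C.any fun p => a.contains p) with
  | none => 1
  | some C =>
    match C.find? fun p => !a.contains (p.1, !p.2) with
    | some p => p.1 + 2
    | none => 0

/-- The leaves of the decision tree, cut off at the depth `D`. -/
def lvs (F : List Clause) (D : ℕ) : List (List (ℕ × Bool)) :=
  (fun H : List (List (ℕ × Bool)) => H.flatMap fun a =>
    if 2 ≤ nx F a then [a ++ [(nx F a - 2, false)], a ++ [(nx F a - 2, true)]] else [a])^[D] [[]]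

/-- The leaf of the assignment `x`. -/
def run {n : ℕ} (F : List Clause) (x : Fin n → Bool) (D : ℕ) : List (ℕ × Bool) :=
  (fun a : List (ℕ × Bool) =>
    if 2 ≤ nx F a then a ++ [(nx F a - 2, Pool.Agent.Helper78.JT.coin x (nx F a - 2))]
    else a)^[D] []

/-- The decision list of the values. -/
def vls (n D : ℕ) (f : CList) : DList := f.flatMap fun e =>
  ((lvs (cl n e.1) D).filter fun a => decide (nx (cl n e.1) a ≠ 0)).map fun a =>
    (a, decide (nx (cl n e.1) a = 1) && e.2)

/-- The decision list which says whether the value is certified. -/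
def ols (n D : ℕ) (f : CList) : DList := (f.flatMap fun e =>
  ((lvs (cl n e.1) D).filter fun a => decide (nx (cl n e.1) a ≠ 0)).map fun a =>
    (a, decide (nx (cl n e.1) a = 1))) ++ [([], true)]

/-- The tuple of a circuit, with certificates for all values (`m` is the number of the lists). -/
def cnv (D m : ℕ) (z : Circuit) : Tup :=
  (z.2.1.map (vls z.1 D) ++ z.2.1.map (ols z.1 D),
    List.replicate (4 ^ m - 2 ^ m) false ++ z.2.2)

/-- **CLN.** Cleaning. -/
def ClnStmt : Prop := ∀ (n : ℕ) (F : List Clause), Cln n (cl n F) ∧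
  (∀ r : Fin n → Bool, Holds r (cl n F) ↔ Holds r F) ∧
  ∀ k : ℕ, ((cl n F).filter fun C => decide (k < C.length)).length ≤
    (F.filter fun C => decide (k < C.length)).length

/-- **LEV.** The leaves.

Proof. Induction on `D` (`Function.iterate_succ_apply'`). The variable which is read next does not
occur in `a`: for the literal `p` found in the clause `C`, `p ∉ a` because no literal of `C` is in `a`,
and `(p.1, !p.2) ∉ a`. If `nx F a = 1`, then each clause has a literal in `a`; if `nx F a = 0`, then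
for some clause all opposite literals are in `a`. -/
def LevStmt : Prop := ∀ (n : ℕ) (F : List Clause) (D : ℕ), Cln n F →
  (lvs F D).length ≤ 2 ^ D ∧
  (∀ a ∈ lvs F D, a.length ≤ D ∧ (a.map Prod.fst).Nodup ∧ ∀ p ∈ a, p.1 < n) ∧
  ∀ x : Fin n → Bool, run F x D ∈ lvs F D ∧
    (∀ a ∈ lvs F D, (∀ p ∈ a, Pool.Agent.Helper78.JT.coin x p.1 = p.2) ↔ a = run F x D) ∧
    (nx F (run F x D) = 1 → Holds x F) ∧ (nx F (run F x D) = 0 → ¬ Holds x F)

/-- **VAL.** The two decision lists. (May assume `ClnStmt`, `LevStmt`.)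

Proof. Induction on `f`: for each test `e` at most one leaf is satisfied by `x`, namely
`run (cl n e.1) x D`, and it is in the list iff its `nx` is not `0`, that is, unless the test was found
to be false. -/
def ValStmt : Prop := ∀ (n D : ℕ) (f : CList),
  NF n D (vls n D f) ∧ NF n D (ols n D f) ∧
  (vls n D f).length ≤ f.length * 2 ^ D ∧ (ols n D f).length ≤ f.length * 2 ^ D + 1 ∧
  ∀ x : Fin n → Bool,
    (DList.val x (ols n D f) = true → DList.val x (vls n D f) = Pool.Agent.Helper78.JT.val x f) ∧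
    (DList.val x (ols n D f) = false →
      ∃ e ∈ f, 2 ≤ nx (cl n e.1) (run (cl n e.1) x D))

/-- **CNV.** The tuple of a circuit. (May assume `ValStmt`.)

Proof. `ixv x (cnv D r z).1 = ixv x (values) + 2 ^ r * ixv x (certificates)`; if all certificates are
`true`, then the second number is `2 ^ r - 1` and the first is `idx x z.2.1`, so the entry is
`z.2.2.getD (idx x z.2.1) false = out z x`; otherwise the second number is `≤ 2 ^ r - 2`, so the index
is `< 4 ^ r - 2 ^ r` and the entry is `false`. -/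
def CnvStmt : Prop := ∀ (D : ℕ) (z : Circuit) (x : Fin z.1 → Bool),
  (tv x (cnv D z.2.1.length z) = true → out z x = true) ∧
  (out z x = true → tv x (cnv D z.2.1.length z) = true ∨
    ∃ f ∈ z.2.1, ∃ e ∈ f, 2 ≤ nx (cl z.1 e.1) (run (cl z.1 e.1) x D))

/-- **EXH.** Few assignments reach the depth `D`.

Proof. Let `A = 1 - 1/(k 2^k)`, so `A^k ≥ 1 - 1/2^k` and `A ≥ 1/2`, `c_m = ∑_{i=1}^m (2 A)^(-i) ≤ 1`
for `m ≤ k` (as `A^(-i) ≤ A^(-k)`, `∑ ≤ A^(-k) (1 - 2^(-k))`), `c_m ≥ 1/2` for `m ≥ 1`. Claim: if the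
first clause without a literal in `a` has `m` literals whose variable is not in `a`, and `M` of the
clauses without a literal in `a` are longer than `k`, then for `x` uniform (extending `a`) the tree
reads `d` more variables with probability at most `2 c_m A^d 3^M` if this first clause is short (`≤ k`
literals) and at most `2 A^d 3^M` if it is long. Induction on `d`: `d = 0`: `2 c_m ≥ 1`. Step: the
variable makes the literal true with probability `1/2` (then the clause has a literal in `a`; the
bound is `≤ 2 A^d 3^M`, and `≤ 2 A^d 3^(M-1)` if the clause was long), or false (then `m` decreases by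
one, or the clause is false if it was `1`): `(1 + c_(m-1))/2 = A c_m` for short ones, and
`(1/3 + 1)/2 = 2/3 ≤ A` for long ones if `k ≥ 2`; for `k = 1` `A = 1/2`: then use
`k = 2`-like constants: it is enough to prove the bound for `2 ≤ k`. -/
def ExhStmt : Prop := ∀ (n k : ℕ) (F : List Clause) (D : ℕ), 2 ≤ k → Cln n F →
  pr (fun x : Fin n → Bool => 2 ≤ nx F (run F x D)) ≤
    2 * 3 ^ (F.filter fun C => decide (k < C.length)).length * (1 - 1 / ((k : ℝ) * 2 ^ k)) ^ D

/-- **ERR.** The number of the tests, times the bound of EXH.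

Proof. `K0 = k 2^k (c + 2 k + 6)`: `(1 - 1/(k 2^k))^(K0 L) ≤ exp (-(c + 2 k + 6) L)`,
`3^(k (log₂ N + 1)) ≤ exp (2 k L)`, `2 N ≤ exp (2 L)`, `exp (-(c + 4) L) ≤ 1/(4 L^c)`. -/
def ErrStmt : Prop := ∀ c k : ℕ, 2 ≤ k → ∃ K0 : ℕ, ∀ N : ℕ,
  (N : ℝ) * (2 * 3 ^ (k * (Nat.log 2 N + 1)) * (1 - 1 / ((k : ℝ) * 2 ^ k)) ^ (K0 * lg N)) ≤
    1 / (4 * (lg N : ℝ) ^ c)

/-- **POL.** The lists in polynomial time. (May assume `ClnStmt`, `LevStmt`,
`Pool.Agent.Helper78.DT.PtlStmt`; compare `Pool.Agent.Helper89.CS.MLP`.)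

Proof. `cl`, `nx`: `filter`, `map`, `dedup`, `find?`, `contains`. `lvs`: `PolyTime.iterate_bd`; there
are at most `2 ^ D ≤ (4 N + 4) ^ K0` leaves (LEV, also for all smaller depths), of length `≤ D`, with
names `< n`. -/
def PolStmt : Prop := ∀ (α : Type) [ToData α] (n N : α → ℕ) (f : α → CList) (K0 : ℕ),
  PolyTime n → PolyTime N → PolyTime f →
  (PolyTime fun a => vls (n a) (K0 * lg (N a)) (f a)) ∧
    PolyTime fun a => ols (n a) (K0 * lg (N a)) (f a)

/-- **PCV.** The tuple in polynomial time. (May assume `PolStmt`, `Pool.Agent.Helper78.DT.PtlStmt`.)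

Proof. `m = min z.2.1.length (lg (size z))`: `2 ^ m ≤ 2 ^ lg (size z) ≤ 4 size z + 4`; `size` is in
`PolyTime` (it is in `CkpStmt`, `Pool.Agent.Helper63.JT.ckp`). -/
def PcvStmt : Prop := ∀ K0 : ℕ, (PolyTime fun z : Circuit => size z) ∧
  PolyTime fun z : Circuit =>
    cnv (K0 * lg (size z)) (min z.2.1.length (lg (size z))) z

/-- **FCT.** Search for circuits. (May assume `ClnStmt`, `ValStmt`, `CnvStmt`, `ExhStmt`, `ErrStmt`,
`PcvStmt` and `∀ c w e, FindsT c w e`.)

Proof. `Narrow k` implies `Narrow (k + 2)`; let `k' = k + 2`, `K0` from ERR for `c`, `k'`,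
`N0 = size z`, `L = lg N0`, `D = K0 L`, `N = (4 N0 + 4) ^ (K0 + 4)`. As `2 ^ L ≤ 4 N0 + 4`, the lists of
`cnv` have at most `N0 2^D + 1 ≤ N` entries, `4 L ≤ lg N`, `D ≤ K0 lg N`, `z.1 ≤ N0 ≤ N`. With
`r = z.2.1.length`, `r^(e+1) ≤ L^e`: `r ≤ L`, and `(2 r)^(e+2) ≤ 2^(e+2) L^(e+1) ≤ (4 L)^(e+1) ≤
(lg N)^(e+1)`. By EXH for all tests (their number is at most `N0`), ERR and CNV,
`fract ≥ 1/L^c - 1/(4 L^c) ≥ 1/(lg N)^(c+1)`. Apply `FindsT (c + 1) K0 (e + 1)` to
`(z.1, cnv D r z, N)`, and CNV. -/
def FctStmt : Prop := (∀ c w e : ℕ, FindsT c w e) → ∀ c k e : ℕ, FindsCircuits c k e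

end Pool.Agent.Helper52.SX
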