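import Pool.Agent.Helper65.CS.Final
import Pool.Agent.Helper78.JT.Final
import Pool.Agent.Helper52.SX.FCT
import Pool.Agent.Helper78.SX.PF
import Pool.Agent.Helper65.SX.STT
import Pool.Agent.Helper65.SX.LPT
import Pool.Agent.Helper4.SX.PGT
import Pool.Agent.Helper17.SX.SET
import Pool.Agent.Helper62.SX.RTT
import Pool.Agent.Helper61.SX.FNT
import Pool.Agent.Helper2.SX.PLT
import Pool.Agent.Helper85.SX.BRT
import Pool.Agent.Helper67.SX.FLT
import Pool.Agent.Helper9.SX.CTT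
import Pool.Agent.Helper66.SX.LEV
import Pool.Agent.Helper96.SX.VAL
import Pool.Agent.Helper13.SX.EXH
import Pool.Agent.Helper71.SX.ERR
import Pool.Agent.Helper78.SX.POL
import Pool.Agent.Helper63.SX.PCV
import Pool.Agent.Helper73.SX.FNF
import Pool.Agent.Helper35.SX.FPR
import Pool.Agent.Helper12.SX.CNV
import Pool.Agent.Helper98.SX.FNU
import Pool.Agent.Helper8.SX.TDT
import Pool.Agent.Helper44.SX.NUT
import Pool.Agent.Helper23.SX.CLN

/-!
# Search for satisfying assignments of circuits of depth three: the assembly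
-/

namespace Pool.Agent.Helper52.SX

open Pool.Agent.Helper78.DT Pool.Agent.Helper65.CS

theorem sttS : SttStmt :=
  Pool.Agent.Helper65.SX.stt dswS Pool.Agent.Helper78.SX.fot Pool.Agent.Helper56.CS.mix
    Pool.Agent.Helper89.CS.gen
    (Pool.Agent.Helper27.CS.chsStmt (Pool.Agent.Helper33.CS.psl Pool.Agent.Helper83.CS.cyl))
    (asgS Pool.Agent.Helper83.CS.cyl) Pool.Agent.Helper3.CS.ovx

theorem rttS : RttStmt := Pool.Agent.Helper62.SX.rtt

theorem setS : SetStmt :=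
  Pool.Agent.Helper17.SX.set_stmt
    (Pool.Agent.Helper4.SX.pgt sttS rttS Pool.Agent.Helper8.SX.tdt Pool.Agent.Helper51.CS.cnd) rttS
    Pool.Agent.Helper51.CS.cnd Pool.Agent.Helper61.CS.aln

theorem findsT : ∀ c w e : ℕ, FindsT c w e :=
  Pool.Agent.Helper67.SX.flt
    (Pool.Agent.Helper65.SX.lpt setS Pool.Agent.Helper44.SX.nut Pool.Agent.Helper8.CS.itr)
    Pool.Agent.Helper61.SX.fnt
    (Pool.Agent.Helper2.SX.plt ptxS Pool.Agent.Helper51.CS.cnd Pool.Agent.Helper3.DT.ptl)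
    (Pool.Agent.Helper85.SX.brt ptxS)
    (Pool.Agent.Helper9.SX.ctt fun c k e => (Pool.Agent.Helper78.JT.main c k e).1)

theorem valS : ValStmt :=
  Pool.Agent.Helper96.SX.val Pool.Agent.Helper23.SX.cln Pool.Agent.Helper66.SX.lev

theorem findsCircuits : ∀ c k e : ℕ, FindsCircuits c k e :=
  fct (Pool.Agent.Helper12.SX.cnvS valS)
    (Pool.Agent.Helper63.SX.pcv (Pool.Agent.Helper78.SX.pol Pool.Agent.Helper3.DT.ptl))
    Pool.Agent.Helper71.SX.err Pool.Agent.Helper98.SX.fnu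
    (Pool.Agent.Helper35.SX.fpr Pool.Agent.Helper23.SX.cln (Pool.Agent.Helper12.SX.cnvS valS)
      Pool.Agent.Helper13.SX.EXH)
    (Pool.Agent.Helper73.SX.fnf valS) findsT

theorem main (c : ℕ) :
    (∀ k e : ℕ, FindsCircuits c k e) ∧ FindsCNF c ∧ FindsLists c ∧ FindsCoins c :=
  ⟨findsCircuits c, Pool.Agent.Helper65.CS.main c⟩

end Pool.Agent.Helper52.SX
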