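import Pool.Agent.Helper65.CS.Goals2
import Pool.Agent.Helper65.CS.Goals3
import Pool.Agent.Helper78.JT.Goals2
import Pool.Agent.Helper52.SX.Defs

/-!
# Project SX: search for satisfying assignments of circuits of depth three

All statements of the projects DT, JT, CS are proved and may be used (`DT/Final.lean`,
`JT/Final.lean`, `CS/Final.lean`; the theorems `dswS`, `stpS`, `rstS`, ... are in `CS/Final.lean`, and
the names of the packet files are in its imports). Most packets are adaptations of packets of CS to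
tuples of decision lists with a truth table.
-/

namespace Pool.Agent.Helper52.SX

open Pool.Agent.Helper81.CC Pool.Agent.Helper78.DT Pool.Agent.Helper51.ZP Pool.Agent.Helper65.CS
open scoped Classical

/-- A list of decision lists with a truth table. -/
abbrev Tup := List DList × List Bool

/-- The number whose binary digits are the values of the decision lists. -/
def ixv {n : ℕ} (r : Fin n → Bool) : List DList → ℕ
  | [] => 0
  | F :: l => (if DList.val r F = true then 1 else 0) + 2 * ixv r l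

/-- The value of a tuple. -/
def tv {n : ℕ} (r : Fin n → Bool) (z : Tup) : Bool := z.2.getD (ixv r z.1) false

/-- The fraction of the assignments with value `true`. -/
noncomputable def fract (n : ℕ) (z : Tup) : ℝ :=
  (Nat.card {r : Fin n → Bool // tv r z = true} : ℝ) / 2 ^ n

/-- All lists are normalized, of width `W`, with at most `l` entries. -/
def NFT (n W l : ℕ) (z : Tup) : Prop := ∀ F ∈ z.1, NF n W F ∧ F.length ≤ l

/-- Restriction. -/
def rstT (s : List (ℕ × Bool)) (z : Tup) : Tup := (z.1.map (rst s), z.2)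

/-- `g` approximates the fractions. -/
def CntT (e k : ℕ) (g : ℕ × Tup × ℕ → ℕ) : Prop :=
  ∀ (n W l : ℕ) (z : Tup) (N : ℕ), NFT n W l z → z.1.length ^ (e + 1) ≤ lg N ^ e →
    |(g (n, z, N) : ℝ) / (lg N : ℝ) ^ k - fract n z| ≤ 1 / (lg N : ℝ) ^ k

/-- One step (compare `Pool.Agent.Helper65.CS.step`). -/
def stepT (g : ℕ × Tup × ℕ → ℕ) (b M n N : ℕ) (t : List (ℕ × Bool) × Tup) :
    List (ℕ × Bool) × Tup :=
  match (cands b M n t.1).find? fun e => decide (g (n, t.2, N) ≤ g (n, rstT e t.2, N) + 3) with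
  | some e => (e ++ t.1, rstT e t.2)
  | none => t

/-- The state after `k` steps. -/
def stT (g : ℕ × Tup × ℕ → ℕ) (n : ℕ) (z : Tup) (N k : ℕ) : List (ℕ × Bool) × Tup :=
  (stepT g (bb (lg N)) (MM N) n N)^[k] ([], z)

/-- The result of the search, for the input `(n, z, N)`. -/
def srchT (g : ℕ × Tup × ℕ → ℕ) (y : ℕ × Tup × ℕ) : List Bool :=
  asg y.1 (stT g y.1 y.2.1 y.2.2 (TT (lg y.2.2))).1

/-- The state is legal, for the original tuple `z`. -/
def InvT (n W l : ℕ) (z : Tup) (t : List (ℕ × Bool) × Tup) : Prop :=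
  (t.1.map Prod.fst).Nodup ∧ (∀ p ∈ t.1, p.1 < n) ∧ NFT n W l t.2 ∧
    t.2.1.length = z.1.length ∧ ∀ x : Fin n → Bool, tv x t.2 = tv (ovr t.1 x) z

/-- The loss of one step, for `r` lists. -/
noncomputable def lossT (r W b u0 c1 M n l : ℕ) : ℝ :=
  (r : ℝ) * ((l : ℝ) * ((W : ℝ) * (2 / 2 ^ b)) ^ u0 +
    ∑ u ∈ Finset.Ico c1 (c1 + u0), (8 * (W : ℝ) * (2 / 2 ^ b)) ^ u) +
    2 ^ (r * c1) * ((n : ℝ) / M)

/-! ### The analysis of one step -/

/-- **PRT.** The canonical decision tree as a partition.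

Proof. Induction on `f`, for all `S`, `ρ` (compare `Pool.Agent.Helper32.CS.fol`). `f = []`: one index,
the empty term. `f = e :: f'`: if `Fls ρ e.1`, the data for `f'` will do (`mx ρ y` does not satisfy
`e.1`). Otherwise let `U = fr ρ e.1` and for `D ⊆ U` let `U_D` be `U` with the bits of the literals in
`D` negated; each `y` satisfies exactly one `U_D`. `D = ∅`: one index, term `U`, value `e.2`. `D ≠ ∅`:
`ρ_D = fx ρ U x_D`, where `x_D` satisfies `U_D` (so `¬ Sat U x_D`), the data for `f'`, `ρ_D`,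
`S \ vr U`, with the terms `U_D ∪ T`. The number of indices is at most
`1 + (2 ^ |U| - 1) 2 ^ sup ≤ 2 ^ dep f ρ`. -/
def PrtStmt : Prop := ∀ (V : Type) [Fintype V] [DecidableEq V] (f : DL V) (S : Finset V)
  (ρ : V → Option Bool), CL f → (∀ v, ρ v = none → v ∈ S) →
  ∃ (ι : Type) (_ : Fintype ι) (T : ι → Tm V) (β : ι → Bool), Fintype.card ι ≤ 2 ^ dep f ρ ∧
    (∀ i, Con (T i) ∧ ∀ p ∈ T i, p.1 ∈ S) ∧ (∀ y : V → Bool, ∃! i, Sat (T i) y) ∧
    ∀ (y : V → Bool) (i : ι), Sat (T i) y → ev f (mx ρ y) = β i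

/-- **FOT.** Almost independent values fool tuples of decision lists whose canonical trees are not
deep. (May assume `PrtStmt`.)

Proof. Take `ι j`, `T j`, `β j` from PRT for `f j`, and for `i ∈ ∏ j, ι j` let `T i = ⋃ j, T j (i j)`.
Each `y` satisfies `T i` for exactly one `i`, and then `H (fun j => ev (f j) (mx ρ y)) =
H (fun j => β j (i j))`. So the event is the disjoint union of the events `Sat (T i)` for the `i` with
`H (β i) = true`. If `T i` is consistent, then `Sat (T i) (Y ω)` has the probability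
`(1/2) ^ |T i|` up to `ε` (`AI`), and `Sat (T i) y` has exactly this probability for uniform `y`
(it is in the proof of `Pool.Agent.Helper32.CS.fol`); otherwise both events are empty. There are
at most `∏ j, 2 ^ dep (f j) ρ ≤ 2 ^ (r m)` tuples `i`. -/
def FotStmt : Prop := ∀ (V : Type) [Fintype V] [DecidableEq V] (Ω : Type) [Fintype Ω]
  [Nonempty Ω] (S : Finset V) (ε : ℝ) (Y : Ω → V → Bool) (r m : ℕ) (f : Fin r → DL V)
  (H : (Fin r → Bool) → Bool) (ρ : V → Option Bool), 0 ≤ ε → (∀ j, CL (f j)) →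
  (∀ v, ρ v = none → v ∈ S) → AI S ε Y → (∀ j, dep (f j) ρ ≤ m) →
  |pr (fun ω => H (fun j => ev (f j) (mx ρ (Y ω))) = true) -
      pr (fun y : V → Bool => H (fun j => ev (f j) (mx ρ y)) = true)| ≤ 2 ^ (r * m) * ε

/-- **STT.** One step of the search for tuples. (May assume `DswStmt`, `FotStmt`, `MixStmt`,
`GenStmt`, `ChsStmt`, `AsgStmt`, `OvxStmt` of `CS/Goals.lean`; adapt `Pool.Agent.Helper42.CS.stp`.)

Proof. As STP; the exceptional event is `∃ j, c1 ≤ dep (f j) (rs S_ω z)`, with the union bound and DSW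
for each `j`; if it does not happen, then `dep (f j) ... ≤ c1` for all `j`, and FOT with `m = c1`. -/
def SttStmt : Prop := ∀ (n r : ℕ) (f : Fin r → DL (Fin n)) (H : (Fin r → Bool) → Bool)
  (al : List ℕ) (b w u0 c1 N l : ℕ), (∀ j, Wid w (f j)) → (∀ j, CL (f j)) →
  (∀ j, (f j).length ≤ l) → al.Nodup → (∀ v ∈ al, v < n) → 2 ≤ N → 1 ≤ c1 → 1 ≤ b →
  (al.length : ℝ) / N ≤ (1 / 2 ^ b) ^ (c1 + u0) →
  ∃ x ∈ gens N (b * (al.length / 2 ^ b)), ∃ y ∈ gens N (al.length / 2 ^ b),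
    pr (fun a => H (fun j => ev (f j) a) = true) ≤
      pr (fun a => H (fun j => ev (f j) (ovr (ex al b x y) a)) = true) +
        ((r : ℝ) * ((l : ℝ) * ((w : ℝ) * (2 / 2 ^ b)) ^ u0 +
          ∑ u ∈ Finset.Ico c1 (c1 + u0), (8 * (w : ℝ) * (2 / 2 ^ b)) ^ u) +
          2 ^ (r * c1) * ((al.length : ℝ) / N))

/-! ### Tuples -/

/-- The entry of the truth table with the digits `v`. -/
def hh (T : List Bool) {r : ℕ} (v : Fin r → Bool) : Bool :=
  T.getD (∑ j : Fin r, if v j = true then 2 ^ (j : ℕ) else 0) false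

/-- **TDT.** Translation. (Use `TdlStmt`, `Pool.Agent.Helper31.CS.tdl_stmt`.)

Proof. TDL for each list; `ixv x l = ∑ j, if val (l.get j) then 2 ^ j else 0` by induction on `l`
(`Fin.sum_univ_succ`); `pr_eq_card`. -/
def TdtStmt : Prop := ∀ (n W l : ℕ) (z : Tup), NFT n W l z →
  (∀ j : Fin z.1.length, Wid W (tdl n (z.1.get j)) ∧ CL (tdl n (z.1.get j)) ∧
    (tdl n (z.1.get j)).length ≤ l) ∧
  (∀ x : Fin n → Bool, tv x z =
    hh z.2 fun j : Fin z.1.length => ev (tdl n (z.1.get j)) x) ∧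
  fract n z = pr fun x : Fin n → Bool => tv x z = true

/-- **RTT.** Restriction of tuples. (Use `RstStmt`, `Pool.Agent.Helper65.CS.rstS`.) -/
def RttStmt : Prop :=
  (∀ (n W l : ℕ) (s : List (ℕ × Bool)) (z : Tup), NFT n W l z →
    NFT n W l (rstT s z) ∧ (rstT s z).1.length = z.1.length) ∧
  ∀ (n : ℕ) (s : List (ℕ × Bool)) (z : Tup) (x : Fin n → Bool), (s.map Prod.fst).Nodup →
    (∀ p ∈ s, p.1 < n) → tv x (rstT s z) = tv (ovr s x) z

/-- **CTT.** Counting with a common unit. (May assume `∀ c k e, Counts c k e`, which is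
`Pool.Agent.Helper78.JT.main`; adapt `Pool.Agent.Helper93.CS.CNT`.)

Proof. Let `h` be the function of `Counts (k + 1) 1 e`, and for a tuple `z` let
`C (n, z, N) = (n + N, z.1.map (fun F => F.map fun e => (e.1.map (fun p => [p]), e.2)), z.2)`, a circuit
in which all clauses have one literal (`Narrow 1`), with the same output as the value of `z` at the
first `n` variables (the lists are normalized, so only variables `< n` occur), of size `≥ N`. Put
`D = lg (size C)` and `g = (2 (lg N)^k h(C) + D^(k+1)) / (2 D^(k+1))`, as in CNT. -/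
def CttStmt : Prop := (∀ c k e : ℕ, Pool.Agent.Helper78.JT.Counts c k e) →
  ∀ e k : ℕ, ∃ g : ℕ × Tup × ℕ → ℕ, PolyTime g ∧ CntT e k g

/-- **PGT.** Some candidate is good. (May assume `SttStmt`, `RttStmt`, `TdtStmt`, `CndStmt`; adapt
`Pool.Agent.Helper87.CS.prg`.) -/
def PgtStmt : Prop := ∀ (n W l b u0 c1 M : ℕ) (s : List (ℕ × Bool)) (z : Tup), NFT n W l z →
  2 ≤ M → 1 ≤ c1 → 1 ≤ b → (n : ℝ) / M ≤ (1 / 2 ^ b) ^ (c1 + u0) → al n s ≠ [] →
  ∃ e ∈ cands b M n s,
    fract n z ≤ fract n (rstT e z) + lossT z.1.length W b u0 c1 M n l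

/-- **SET.** One step of the algorithm. (May assume `PgtStmt`, `RttStmt`, `CndStmt`, `AlnStmt`;
adapt `Pool.Agent.Helper34.CS.ste`, `Pool.Agent.Helper15.CS.inv`.) -/
def SetStmt : Prop := ∀ (e k : ℕ) (g : ℕ × Tup × ℕ → ℕ), CntT e k g →
  ∀ (n N W l b u0 c1 M : ℕ) (z : Tup) (t : List (ℕ × Bool) × Tup), InvT n W l z t →
  z.1.length ^ (e + 1) ≤ lg N ^ e → 2 ≤ M → 1 ≤ c1 → 1 ≤ b →
  (N : ℝ) / M ≤ (1 / 2 ^ b) ^ (c1 + u0) → n ≤ N →
  lossT z.1.length W b u0 c1 M N l ≤ 1 / (lg N : ℝ) ^ k →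
  InvT n W l z (stepT g b M n N t) ∧
  fract n t.2 ≤ fract n (stepT g b M n N t).2 + 5 / (lg N : ℝ) ^ k ∧
  (al n (stepT g b M n N t).1).length * 2 ^ (b + 1) + (al n t.1).length ≤
    (al n t.1).length * 2 ^ (b + 1)

/-- **NUT.** The numbers. (Adapt `Pool.Agent.Helper16.CS.PR1`, `Pool.Agent.Helper79.CS.PR2`,
`Pool.Agent.Helper89.CS.PR3`.)

Proof. `L = lg N`, `b = bb L`, `c1 = c + 6`, `u0 = uu L`. `r^(e+1) ≤ L^e` gives `r ≤ L` and
`(r c1)^(e+1) ≤ c1^(e+1) L^e ≤ L^(e+1)` for `L ≥ c1^(e+1)`, so `r c1 ≤ L`. With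
`x = w L (2/2^b) ≤ 2 w/L` as in PR2: `r N x^u0 ≤ L 2^L 2^(-2L)`, `r ∑ (8x)^u ≤ L * 2 (16 w/L)^(c+6)`,
`2^(r c1) N/M ≤ 2^L 2^(-18 L)`; each is `≤ 1/(4 L^(c+4))` for large `L`. -/
def NutStmt : Prop := ∀ c w e : ℕ, ∃ L0 : ℕ, ∀ N r : ℕ, L0 ≤ lg N → r ^ (e + 1) ≤ lg N ^ e →
  2 ≤ MM N ∧ (N : ℝ) / MM N ≤ (1 / 2 ^ bb (lg N)) ^ (c + 6 + uu (lg N)) ∧
  lossT r (w * lg N) (bb (lg N)) (uu (lg N)) (c + 6) (MM N) N N ≤ 1 / (lg N : ℝ) ^ (c + 4) ∧
  (TT (lg N) : ℝ) * (5 / (lg N : ℝ) ^ (c + 4)) ≤ 1 / (4 * (lg N : ℝ) ^ c)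

/-- **LPT.** The loop. (May assume `SetStmt`, `NutStmt`, `ItrStmt`; adapt
`Pool.Agent.Helper81.CS.lop`.) -/
def LptStmt : Prop := ∀ (c w e : ℕ) (g : ℕ × Tup × ℕ → ℕ), CntT e (c + 4) g → ∃ L0 : ℕ,
  ∀ (n N : ℕ) (z : Tup), L0 ≤ lg N → n ≤ N → NFT n (w * lg N) N z →
    z.1.length ^ (e + 1) ≤ lg N ^ e →
    InvT n (w * lg N) N z (stT g n z N (TT (lg N))) ∧
    al n (stT g n z N (TT (lg N))).1 = [] ∧
    fract n z ≤ fract n (stT g n z N (TT (lg N))).2 + 1 / (4 * (lg N : ℝ) ^ c)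

/-- **FNT.** The end of the search. (Adapt `Pool.Agent.Helper61.CS.FIN`.) -/
def FntStmt : Prop := ∀ (n W l : ℕ) (z : Tup) (t : List (ℕ × Bool) × Tup), InvT n W l z t →
  al n t.1 = [] → 0 < fract n t.2 →
  ∃ r : Fin n → Bool, tv r z = true ∧ asg n t.1 = List.ofFn r

/-- **PLT.** The search in polynomial time. (May assume `PtxStmt`, `CndStmt`,
`Pool.Agent.Helper78.DT.PtlStmt`; adapt `Pool.Agent.Helper37.CS.PTC`, `Pool.Agent.Helper2.CS.PTR`.)

Proof. `rstT` is a map of `rst`; the sizes of the lists do not increase, the table does not change. -/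
def PltStmt : Prop := ∀ g : ℕ × Tup × ℕ → ℕ, PolyTime g → PolyTime (srchT g)

/-- **BRT.** Brute force for few variables. (May assume `PtxStmt`; adapt
`Pool.Agent.Helper67.CS.BRF`.)

Proof. `tv (List.ofFn r) z` is computed from the values `vl r F` of the lists: `ixv` is at most
`2 ^ z.1.length`, which is not polynomial; halve the table instead: the value is obtained by a fold
over `z.1` which keeps of the table the entries with the numbers `≡ digit mod 2` (compare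
`Pool.Agent.Helper63.JT.CKP`). -/
def BrtStmt : Prop := ∀ M : ℕ, ∃ h : ℕ × Tup → List Bool, PolyTime h ∧ ∀ (n : ℕ) (z : Tup),
  n ≤ M → (∃ r : Fin n → Bool, tv r z = true) →
  ∃ r : Fin n → Bool, tv r z = true ∧ h (n, z) = List.ofFn r

/-- The search theorem for tuples. -/
def FindsT (c w e : ℕ) : Prop := ∃ f : ℕ × Tup × ℕ → List Bool, PolyTime f ∧
  ∀ (n N : ℕ) (z : Tup), n ≤ N → NFT n (w * lg N) N z → z.1.length ^ (e + 1) ≤ lg N ^ e →
    1 / (lg N : ℝ) ^ c ≤ fract n z →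
    ∃ r : Fin n → Bool, tv r z = true ∧ f (n, z, N) = List.ofFn r

/-- **FLT.** (May assume `LptStmt`, `FntStmt`, `PltStmt`, `BrtStmt`, and the conclusion of `CttStmt`;
adapt `Pool.Agent.Helper38.CS.FLI`.)

Proof. `g` from CTT for `e`, `k = c + 4`, `L0` from LPT; `f (n, z, N) = srchT g (n, z, N)` if
`L0 ≤ lg N`, otherwise brute force with `M = 2 ^ L0` (`n ≤ N < 2 ^ lg N`). -/
def FltStmt : Prop := (∀ e k : ℕ, ∃ g : ℕ × Tup × ℕ → ℕ, PolyTime g ∧ CntT e k g) →
  ∀ c w e : ℕ, FindsT c w e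

end Pool.Agent.Helper52.SX
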