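import Pool.Agent.Helper52.SX.Goals2

/-!
# Project SX, third part: the two halves of FCT
-/

namespace Pool.Agent.Helper52.SX

open Pool.Agent.Helper81.CC Pool.Agent.Helper78.DT Pool.Agent.Helper51.ZP Pool.Agent.Helper65.CS
open Pool.Agent.Helper78.JT (Clause CList Circuit Holds out cnt size Narrow)
open scoped Classical

/-- **FNU.** The numbers. -/
def FnuStmt : Prop := ∀ c K0 e N0 r : ℕ, r ^ (e + 1) ≤ lg N0 ^ e →
  N0 ≤ (4 * N0 + 4) ^ (K0 + 4) ∧ N0 * 2 ^ (K0 * lg N0) + 1 ≤ (4 * N0 + 4) ^ (K0 + 4) ∧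
  lg N0 ≤ lg ((4 * N0 + 4) ^ (K0 + 4)) ∧ r ≤ lg N0 ∧
  (2 * r) ^ (e + 2) ≤ lg ((4 * N0 + 4) ^ (K0 + 4)) ^ (e + 1) ∧
  1 / (lg ((4 * N0 + 4) ^ (K0 + 4)) : ℝ) ^ (c + 1) ≤
    1 / (lg N0 : ℝ) ^ c - 1 / (4 * (lg N0 : ℝ) ^ c)

/-- **FPR.** The certified tuple loses little. (May assume `ClnStmt`, `CnvStmt`, `ExhStmt`.)

Proof. By CNV, an assignment with output `true` and `tv = false` has a test `e` of some list with
`2 ≤ nx (cl z.1 e.1) (run (cl z.1 e.1) x D)`; there are at most `size z` tests, and by EXH (for the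
CNF `cl z.1 e.1`, clean by CLN, with at most `k (log₂ (size z) + 1)` long clauses by CLN and `Narrow`)
each has the probability at most `2 * 3 ^ ... * ...`. -/
def FprStmt : Prop := ∀ (z : Circuit) (D k : ℕ), 2 ≤ k → Narrow k z →
  (cnt z : ℝ) / 2 ^ z.1 ≤ fract z.1 (cnv D z.2.1.length z) +
    (size z : ℝ) * (2 * 3 ^ (k * (Nat.log 2 (size z) + 1)) * (1 - 1 / ((k : ℝ) * 2 ^ k)) ^ D)

/-- **FNF.** The tuple is normalized. (May assume `ValStmt`.) -/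
def FnfStmt : Prop := ∀ (z : Circuit) (D m : ℕ),
  NFT z.1 D (size z * 2 ^ D + 1) (cnv D m z) ∧ (cnv D m z).1.length = 2 * z.2.1.length

end Pool.Agent.Helper52.SX
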